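import Mathlib
import Pool.Agent.S13232

/-!
# Bell's question: a closed `G_δ`-subset of a centered compactum need not be centered

Let `V` be the disjoint union of `ℕ` and the Cantor set `2^ℕ`.  A finite subset `σ` of `V` is good
if, for any two different branches `s, t ∈ σ`, the first level at which `s` and `t` differ is not in
`σ`.  Let `P_v` be the set of all good finite sets that contain `v`, and let `S = {P_v : v ∈ V}`.
The set `F` of all `ξ ∈ Cen(S)` that contain all the sets `P_n`, `n ∈ ℕ`, with at most one exception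
is closed and an intersection of countably many clopen sets, but it is not a continuous image of
`Cen(T)` for any family `T` of sets.
-/

set_option autoImplicit false

universe u v

namespace Pool.Agent.Results.MP_5abde9_gt.ClosedGDelta

/-- The finite intersection property: every nonempty finite subfamily has a common point. -/
def FIP {Y : Type u} (ξ : Set (Set Y)) : Prop :=
  ∀ E : Set (Set Y), E ⊆ ξ → E.Finite → E.Nonempty → (⋂₀ E).Nonempty

/-- `Cen(S)`: the set of all subfamilies of `S` (the empty one included) that have the finite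
intersection property. -/
def Cen {Y : Type u} (S : Set (Set Y)) : Type u := {ξ : Set (Set Y) // ξ ⊆ S ∧ FIP ξ}

/-- `P⁺`: the set of all `ξ ∈ Cen(S)` with `P ∈ ξ`. -/
def plus {Y : Type u} {S : Set (Set Y)} (P : Set Y) : Set (Cen S) := {ξ | P ∈ ξ.1}

/-- The topology of `Cen(S)`: the sets `P⁺` and their complements `P⁻`, `P ∈ S`, are a subbase. -/
instance {Y : Type u} (S : Set (Set Y)) : TopologicalSpace (Cen S) :=
  TopologicalSpace.generateFrom {U | ∃ P ∈ S, U = plus P ∨ U = (plus P)ᶜ}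

/-- A space `X` is centered if there is a continuous surjection `Cen(S) → X` for some infinite
family `S` of sets. -/
def Centered (X : Type v) [TopologicalSpace X] : Prop :=
  ∃ (Y : Type u) (S : Set (Set Y)), S.Infinite ∧
    ∃ f : Cen S → X, Continuous f ∧ Function.Surjective f

section basics

variable {Y : Type u} {S : Set (Set Y)}

lemma isClopen_plus {P : Set Y} (hP : P ∈ S) : IsClopen (plus P : Set (Cen S)) := by
  constructor
  · rw [← isOpen_compl_iff]
    exact TopologicalSpace.isOpen_generateFrom_of_mem ⟨P, hP, Or.inr rfl⟩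
  · exact TopologicalSpace.isOpen_generateFrom_of_mem ⟨P, hP, Or.inl rfl⟩

lemma sep (S : Set (Set Y)) : TotallySeparatedSpace (Cen S) := by
  rw [totallySeparatedSpace_iff_exists_isClopen]
  intro ξ η hne
  have h1 : ξ.1 ≠ η.1 := fun h => hne (Subtype.ext h)
  rw [Ne, Set.ext_iff, not_forall] at h1
  obtain ⟨P, hP⟩ := h1
  by_cases h2 : P ∈ ξ.1
  · have h3 : P ∉ η.1 := fun h => hP ⟨fun _ => h, fun _ => h2⟩
    exact ⟨plus P, isClopen_plus (ξ.2.1 h2), h2, h3⟩
  · have h3 : P ∈ η.1 := by
      by_contra h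
      exact hP ⟨fun h' => absurd h' h2, fun h' => absurd h' h⟩
    refine ⟨(plus P)ᶜ, (isClopen_plus (η.2.1 h3)).compl, h2, ?_⟩
    rw [compl_compl]
    exact h3

/-- the Boolean form of `Cen(S)` -/
def Bl (S : Set (Set Y)) : Set (S → Bool) :=
  {x | ∀ E : Finset S, (∀ P ∈ E, x P = true) → E.Nonempty → (⋂ P ∈ E, P.1).Nonempty}

lemma isCompact_Bl (S : Set (Set Y)) : IsCompact (Bl S) := by
  apply IsClosed.isCompact
  have : Bl S = ⋂ E : Finset S,
      {x : S → Bool | (∀ P ∈ E, x P = true) → E.Nonempty → (⋂ P ∈ E, P.1).Nonempty} := by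
    ext x; simp [Bl]
  rw [this]
  refine isClosed_iInter fun E => ?_
  by_cases hE : E.Nonempty → (⋂ P ∈ E, P.1).Nonempty
  · have : {x : S → Bool | (∀ P ∈ E, x P = true) → E.Nonempty → (⋂ P ∈ E, P.1).Nonempty} =
        Set.univ := by
      ext x
      exact ⟨fun _ => Set.mem_univ _, fun _ _ => hE⟩
    rw [this]; exact isClosed_univ
  · have : {x : S → Bool | (∀ P ∈ E, x P = true) → E.Nonempty → (⋂ P ∈ E, P.1).Nonempty} =
        (⋂ P ∈ E, (fun x : S → Bool => x P) ⁻¹' {true})ᶜ := by
      ext x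
      simp only [Set.mem_ofPred_eq, Set.mem_compl_iff, Set.mem_iInter, Set.mem_preimage,
        Set.mem_singleton_iff]
      tauto
    rw [this]
    apply IsOpen.isClosed_compl
    apply isOpen_biInter_finset
    intro Q _
    exact (isOpen_discrete _).preimage (continuous_apply Q)

/-- the comparison map -/
def cmp (S : Set (Set Y)) (x : Bl S) : Cen S :=
  ⟨{Q | ∃ h : Q ∈ S, x.1 ⟨Q, h⟩ = true}, fun _ h => h.1, by
    classical
    intro E hE hfin hne
    have hES : ∀ Q ∈ E, Q ∈ S := fun Q hQ => (hE hQ).1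
    have : Fintype E := hfin.fintype
    let G : Finset S := Finset.univ.image (fun Q : E => (⟨Q.1, hES Q.1 Q.2⟩ : S))
    obtain ⟨Q0, hQ0⟩ := hne
    have h1 := x.2 G (by
      intro P hP
      obtain ⟨Q, _, rfl⟩ := Finset.mem_image.1 hP
      exact (hE Q.2).2) ⟨_, Finset.mem_image_of_mem _ (Finset.mem_univ ⟨Q0, hQ0⟩)⟩
    obtain ⟨z, hz⟩ := h1
    refine ⟨z, ?_⟩
    rw [Set.mem_sInter]
    intro Q hQ
    simp only [Set.mem_iInter] at hz
    exact hz ⟨Q, hES Q hQ⟩ (Finset.mem_image_of_mem _ (Finset.mem_univ (⟨Q, hQ⟩ : E)))⟩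

lemma continuous_cmp (S : Set (Set Y)) : Continuous (cmp S) := by
  rw [continuous_generateFrom_iff]
  have h1 : ∀ P : Set Y, ∀ hP : P ∈ S, cmp S ⁻¹' (plus P) =
      (fun x : Bl S => x.1 ⟨P, hP⟩) ⁻¹' {true} := by
    intro P hP
    ext x
    exact ⟨fun h => h.2, fun h => ⟨hP, h⟩⟩
  have h2 : ∀ P : Set Y, ∀ hP : P ∈ S, IsClopen (cmp S ⁻¹' (plus P)) := by
    intro P hP
    rw [h1 P hP]
    exact (isClopen_discrete _).preimage ((continuous_apply _).comp continuous_subtype_val)
  rintro U ⟨P, hP, rfl | rfl⟩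
  · exact (h2 P hP).2
  · rw [Set.preimage_compl]
    exact (h2 P hP).compl.2

lemma surjective_cmp (S : Set (Set Y)) : Function.Surjective (cmp S) := by
  classical
  intro ξ
  refine ⟨⟨fun P => decide (P.1 ∈ ξ.1), ?_⟩, ?_⟩
  · intro E hE hne
    have h1 := ξ.2.2 (Subtype.val '' (E : Set S)) (by
      rintro Q ⟨P, hP, rfl⟩
      exact of_decide_eq_true (hE P hP)) (E.finite_toSet.image _)
      (Set.image_nonempty.2 (Finset.coe_nonempty.2 hne))
    obtain ⟨z, hz⟩ := h1
    refine ⟨z, ?_⟩
    simp only [Set.mem_iInter]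
    intro P hP
    exact hz P.1 ⟨P, hP, rfl⟩
  · apply Subtype.ext
    ext Q
    constructor
    · rintro ⟨h, hQ⟩
      exact of_decide_eq_true hQ
    · intro hQ
      exact ⟨ξ.2.1 hQ, decide_eq_true hQ⟩

lemma compactSpace (S : Set (Set Y)) : CompactSpace (Cen S) := by
  have : CompactSpace (Bl S) := isCompact_iff_compactSpace.1 (isCompact_Bl S)
  constructor
  rw [← (surjective_cmp S).range_eq]
  exact isCompact_range (continuous_cmp S)

end basics

open Pool.Agent.S13232 PiNat

/-- the family of the example -/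
def S₀ : Set (Set (Finset V)) := Set.range P

/-- the closed `G_δ`-set of the example -/
def F₀ : Set (Cen S₀) :=
  {ξ | ∀ m n : ℕ, P (Sum.inl m) ∉ ξ.1 → P (Sum.inl n) ∉ ξ.1 → m = n}

lemma mem_S₀ (w : V) : P w ∈ S₀ := ⟨w, rfl⟩

/-- the clopen sets -/
def U₀ (q : ℕ × ℕ) : Set (Cen S₀) :=
  {ξ | P (Sum.inl q.1) ∉ ξ.1 → P (Sum.inl q.2) ∉ ξ.1 → q.1 = q.2}

lemma isClopen_U₀ (q : ℕ × ℕ) : IsClopen (U₀ q) := by
  by_cases h : q.1 = q.2
  · have : U₀ q = Set.univ := by
      ext ξ
      exact ⟨fun _ => Set.mem_univ _, fun _ _ _ => h⟩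
    rw [this]
    exact isClopen_univ
  · have : U₀ q = plus (P (Sum.inl q.1)) ∪ plus (P (Sum.inl q.2)) := by
      ext ξ
      simp only [U₀, plus, Set.mem_ofPred_eq, Set.mem_union]
      tauto
    rw [this]
    exact (isClopen_plus (mem_S₀ _)).union (isClopen_plus (mem_S₀ _))

lemma F₀_eq : F₀ = ⋂ q : ℕ × ℕ, U₀ q := by
  ext ξ
  simp only [F₀, U₀, Set.mem_ofPred_eq, Set.mem_iInter, Prod.forall]

lemma fip_of_good {y : V → Bool} (hy : Good y) : FIP {Q | ∃ w, y w = true ∧ P w = Q} := by
  classical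
  intro E hE hfin _
  have hinj : (P ⁻¹' E).Finite := hfin.preimage P_injective.injOn
  refine ⟨hinj.toFinset, ?_⟩
  rw [Set.mem_sInter]
  intro Q hQ
  obtain ⟨w, hw, rfl⟩ := hE hQ
  refine ⟨hinj.mem_toFinset.2 hQ, ?_⟩
  intro s t hst hs ht hn
  have h1 : ∀ w' : V, w' ∈ hinj.toFinset → y w' = true := by
    intro w' hw'
    obtain ⟨w2, hw2, h3⟩ := hE (hinj.mem_toFinset.1 hw')
    rw [← P_injective h3]
    exact hw2
  have h2 := hy s t hst (h1 _ hs) (h1 _ ht)
  rw [h1 _ hn] at h2
  exact Bool.noConfusion h2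

lemma good_of_fip {ξ : Cen S₀} {y : V → Bool} (hy : ∀ w, y w = true ↔ P w ∈ ξ.1) : Good y := by
  intro s t hst hs ht
  by_contra hn
  rw [Bool.not_eq_false] at hn
  obtain ⟨σ, hσ⟩ := ξ.2.2 {P (Sum.inr s), P (Sum.inr t), P (Sum.inl (firstDiff s t))} (by
    rintro Q (rfl | rfl | rfl)
    · exact (hy _).1 hs
    · exact (hy _).1 ht
    · exact (hy _).1 hn) (by simp) (by simp)
  rw [Set.mem_sInter] at hσ
  have h1 : σ ∈ P (Sum.inr s) := hσ _ (by simp)
  have h2 : σ ∈ P (Sum.inr t) := hσ _ (by simp)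
  have h3 : σ ∈ P (Sum.inl (firstDiff s t)) := hσ _ (by simp)
  exact h1.2 s t hst h1.1 h2.1 h3.1

lemma not_image {Z : Type u} (T : Set (Set Z)) (g : Cen T → F₀) (hg : Continuous g) :
    ¬ Function.Surjective g := by
  classical
  intro hs
  refine key (ι := T) (A := Bl T) (isCompact_Bl T) ?_
    (fun x w => decide (P w ∈ (g (cmp T x)).1.1)) ?_ ?_ ?_ ?_
  · intro x hx y hy E hE
    exact hx E fun Q hQ => hy Q (hE Q hQ)
  · refine continuous_pi fun w => ?_
    have h1 : (fun x : Bl T => decide (P w ∈ (g (cmp T x)).1.1)) =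
        (fun ξ : Cen S₀ => decide (ξ ∈ (plus (P w) : Set (Cen S₀)))) ∘
          (fun x : Bl T => (g (cmp T x)).1) := rfl
    rw [h1]
    refine Continuous.comp ?_ (continuous_subtype_val.comp (hg.comp (continuous_cmp T)))
    refine continuous_discrete_rng.2 fun b => ?_
    cases b
    · have : (fun ξ : Cen S₀ => decide (ξ ∈ (plus (P w) : Set (Cen S₀)))) ⁻¹' {false} =
          (plus (P w))ᶜ := by
        ext ξ; simp
      rw [this]
      exact (isClopen_plus (mem_S₀ w)).compl.2
    · have : (fun ξ : Cen S₀ => decide (ξ ∈ (plus (P w) : Set (Cen S₀)))) ⁻¹' {true} =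
          plus (P w) := by
        ext ξ; simp
      rw [this]
      exact (isClopen_plus (mem_S₀ w)).2
  · intro x
    exact good_of_fip (ξ := (g (cmp T x)).1) fun w => decide_eq_true_iff
  · intro x m n hm hn
    exact (g (cmp T x)).2 m n (of_decide_eq_false hm) (of_decide_eq_false hn)
  · intro y hy hy2
    have hval : ∀ w, (P w ∈ {Q | ∃ w, y w = true ∧ P w = Q}) ↔ y w = true := by
      intro w
      constructor
      · rintro ⟨w', hw', h⟩
        rw [← P_injective h]
        exact hw'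
      · intro h
        exact ⟨w, h, rfl⟩
    let ξ : Cen S₀ := ⟨{Q | ∃ w, y w = true ∧ P w = Q}, by
      rintro Q ⟨w, _, rfl⟩
      exact mem_S₀ w, fip_of_good hy⟩
    have hξ : ξ ∈ F₀ := by
      intro m n hm hn
      have h1 : y (Sum.inl m) = false := by
        rw [← Bool.not_eq_true]
        exact fun h => hm ((hval _).2 h)
      have h2 : y (Sum.inl n) = false := by
        rw [← Bool.not_eq_true]
        exact fun h => hn ((hval _).2 h)
      exact hy2 m n h1 h2
    obtain ⟨z, hz⟩ := hs ⟨ξ, hξ⟩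
    obtain ⟨x, hx⟩ := surjective_cmp T z
    refine ⟨x, ?_⟩
    funext w
    show decide (P w ∈ (g (cmp T x)).1.1) = y w
    rw [hx, hz, Bool.eq_iff_iff, decide_eq_true_iff]
    exact hval w

/-- **Answer to Bell's question (no).**  There is an infinite family `S` of sets such that the
compactum `X = Cen(S)` (which is centered by definition) has a nonempty closed `G_δ`-subset `F`,
even an intersection of countably many clopen sets, which is not centered; `F` is not a continuous
image of `Cen(T)` for any family `T` (infinite or not) of subsets of any set. -/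
theorem result :
    ∃ (Y : Type) (S : Set (Set Y)), S.Infinite ∧ CompactSpace (Cen S) ∧ T2Space (Cen S) ∧
      TotallyDisconnectedSpace (Cen S) ∧ Centered.{0, 0} (Cen S) ∧
      ∃ F : Set (Cen S), IsClosed F ∧ IsGδ F ∧ F.Nonempty ∧
        (∃ U : ℕ → Set (Cen S), (∀ n, IsClopen (U n)) ∧ F = ⋂ n, U n) ∧
        ¬ Centered.{u, 0} F ∧
        ∀ (Z : Type u) (T : Set (Set Z)) (g : Cen T → F), Continuous g →
          ¬ Function.Surjective g := by
  have hinf : S₀.Infinite := Set.infinite_range_of_injective P_injective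
  have hsep : TotallySeparatedSpace (Cen S₀) := sep S₀
  have hU : ∃ U : ℕ → Set (Cen S₀), (∀ n, IsClopen (U n)) ∧ F₀ = ⋂ n, U n := by
    refine ⟨fun n => U₀ (Nat.unpair n), fun n => isClopen_U₀ _, ?_⟩
    rw [F₀_eq]
    ext ξ
    simp only [Set.mem_iInter]
    constructor
    · intro h n
      exact h _
    · intro h q
      have := h (Nat.pair q.1 q.2)
      rwa [Nat.unpair_pair] at this
  refine ⟨Finset V, S₀, hinf, compactSpace S₀, inferInstance, inferInstance,
    ⟨_, S₀, hinf, id, continuous_id, Function.surjective_id⟩, F₀, ?_, ?_, ?_, hU, ?_, ?_⟩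
  · rw [F₀_eq]
    exact isClosed_iInter fun q => (isClopen_U₀ q).1
  · rw [F₀_eq]
    exact IsGδ.iInter fun q => (isClopen_U₀ q).2.isGδ
  · have hg : Good (Sum.elim (fun _ : ℕ => true) (fun _ : ℕ → Bool => false)) := by
      intro s t _ hs _
      simp at hs
    refine ⟨⟨{Q | ∃ w, Sum.elim (fun _ : ℕ => true) (fun _ : ℕ → Bool => false) w = true ∧
      P w = Q}, by
        rintro Q ⟨w, _, rfl⟩
        exact mem_S₀ w, fip_of_good hg⟩, ?_⟩
    intro m n hm _
    exact absurd ⟨Sum.inl m, rfl, rfl⟩ hm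
  · rintro ⟨Z, T, _, g, hg, hs⟩
    exact not_image T g hg hs
  · intro Z T g hg
    exact not_image T g hg

end Pool.Agent.Results.MP_5abde9_gt.ClosedGDelta
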